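import Mathlib
import Pool.Agent.H.MP_66ce2c_al.D

namespace Pool.Agent.Results.MP_66ce2c_al.Torsion

/-- parafree groups -/
def Parafree (P : Type) [Group P] : Prop :=
  ⨅ n, (⊤ : Subgroup P).lowerCentralSeries n = ⊥ ∧
    ∃ α : Type, ∀ n, Nonempty (P ⧸ (⊤ : Subgroup P).lowerCentralSeries n ≃*
      FreeGroup α ⧸ (⊤ : Subgroup (FreeGroup α)).lowerCentralSeries n)

theorem result : ∃ (P : Type) (_ : Group P) (N : Subgroup P) (_ : N.Normal), Parafree P ∧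
    (∀ x : N ⧸ commutator N, IsOfFinOrder x → x = 1) ∧
    ∃ g : P ⧸ ⁅N, N⁆, g ≠ 1 ∧ IsOfFinOrder g := by
  open Pool.Agent.H.MP_66ce2c_al in
  exact ⟨P, inferInstance, NN, inferInstance, ⟨resnil, Fin 2, para⟩, tf, tors⟩

end Pool.Agent.Results.MP_66ce2c_al.Torsion
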